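import Pool.Agent.H23S.Asm3
import Pool.Agent.H23S.NF
import Pool.Agent.H23S.NS0
import Pool.Agent.H23S.NSI
import Pool.Agent.H23S.RPC
import Pool.Agent.H23S.LIN
import Pool.Agent.H23S.TRA
import Pool.Agent.H23S.DP
import Pool.Agent.H23S.ENT
import Pool.Agent.H23S.MIN
import Pool.Agent.H23S.CROSS
import Pool.Agent.H23S.CNT
import Pool.Agent.H23S.EXN
import Pool.Agent.H23S.EXL

/-!
# Curves of degree 8 with a projective symmetry of order 7

The maximal number of components of a nonsingular real plane curve of degree `8` with a real projective symmetry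
of order `7` is exactly `15` (and not `22`, the number of components of an M-curve of degree `8`). The upper bound is the
case `k = 4`, `m = 7` of the theorem of the file `SymmetricCurves`, the curve with `15` components is the explicit
`F8` of `Pool/Agent/H23S/Stm2.lean`.
-/

set_option autoImplicit false

namespace Pool.Agent.Results.MP_b7f146_ag.FifteenOvals

open Pool.Agent.H23S

/-- The rotation by `2 π / 7` as a linear map. -/
noncomputable def rotL : Module.End ℝ (Fin 3 → ℝ) where
  toFun := rot 7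
  map_add' v w := by
    unfold rot
    ext i
    fin_cases i <;> simp <;> ring
  map_smul' r v := by
    unfold rot
    ext i
    fin_cases i <;> simp <;> ring

theorem rotL_apply (v : Fin 3 → ℝ) : rotL v = rot 7 v := rfl

theorem rotL_pow (j : ℕ) (v : Fin 3 → ℝ) : (rotL ^ j) v = (rot 7)^[j] v := by
  rw [Module.End.pow_apply]
  rfl

/-- `F` has a projective symmetry of order exactly `7`. -/
def SymSeven (F : MvPolynomial (Fin 3) ℝ) : Prop :=
  ∃ (σ : Module.End ℝ (Fin 3 → ℝ)) (a : ℝ), Function.Injective σ ∧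
    (∀ v, MvPolynomial.eval (σ v) F = a * MvPolynomial.eval v F) ∧
    (∃ l : ℝ, ∀ v, (σ ^ 7) v = l • v) ∧
    ∀ j, 0 < j → j < 7 → ¬ ∃ l : ℝ, ∀ v, (σ ^ j) v = l • v

theorem symSeven_F8 : SymSeven F8 := by
  have h7 : ∀ v, (rotL ^ 7) v = v := fun v => by
    rw [rotL_pow]
    exact As.rot_m 7 (by norm_num) v
  refine ⟨rotL, 1, ?_, ?_, ⟨1, fun v => by rw [h7 v, one_smul]⟩, ?_⟩
  · intro v w hvw
    have h1 : (rotL ^ 7) v = (rotL ^ 7) w := by
      rw [pow_succ, Module.End.mul_apply, Module.End.mul_apply, hvw]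
    rwa [h7, h7] at h1
  · intro v
    rw [one_mul]
    exact t_EXN.2.2 v
  · rintro j hj0 hj7 ⟨l, hl⟩
    have hπ := Real.pi_pos
    have hj0' : (0 : ℝ) < j := by exact_mod_cast hj0
    have hj7' : (j : ℝ) < 7 := by exact_mod_cast hj7
    have h1 := congrFun (hl ![0, 0, 1]) 2
    rw [rotL_pow, As.rot_iter] at h1
    have hl1 : l = 1 := by simpa [As.rotA] using h1.symm
    have h2 := congrFun (hl ![1, 0, 0]) 0
    rw [rotL_pow, As.rot_iter, hl1] at h2
    have h3 : Real.cos (j * (2 * Real.pi / 7)) = 1 := by simpa [As.rotA] using h2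
    have hx1 : 0 < (j : ℝ) * (2 * Real.pi / 7) := by positivity
    have hx2 : (j : ℝ) * (2 * Real.pi / 7) < 2 * Real.pi := by
      have : (j : ℝ) * (2 * Real.pi / 7) < 7 * (2 * Real.pi / 7) :=
        mul_lt_mul_of_pos_right hj7' (by positivity)
      linarith
    have h4 := (Real.cos_eq_one_iff_of_lt_of_lt (by linarith) hx2).1 h3
    linarith

theorem result : IsGreatest {n : ℕ∞ | ∃ F : MvPolynomial (Fin 3) ℝ, F.IsHomogeneous 8 ∧ Nonsing F ∧
    SymSeven F ∧ n = (comps (realPart F)).encard} 15 := by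
  have hub : ∀ F : MvPolynomial (Fin 3) ℝ, F.IsHomogeneous 8 → Nonsing F → SymSeven F →
      (comps (realPart F)).encard ≤ 15 := by
    rintro F hF hN ⟨σ, a, hinj, hsym, hm, hord⟩
    have h := (As.main t_NF t_NS0 t_NSI t_RPC t_LIN t_TRA t_DP (fun h => t_ENT h) t_MIN t_CROSS
      (t_CNT t_DP (t_ENT t_DP)) 4 7 F σ a (by norm_num) hF hN hinj hsym (by decide) (by norm_num)
      hm hord).2.1 (by norm_num)
    exact h
  refine ⟨⟨F8, t_EXN.1, t_EXN.2.1, symSeven_F8, ?_⟩, ?_⟩
  · exact le_antisymm t_EXL (hub F8 t_EXN.1 t_EXN.2.1 symSeven_F8)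
  · rintro n ⟨F, hF, hN, hS, rfl⟩
    exact hub F hF hN hS

end Pool.Agent.Results.MP_b7f146_ag.FifteenOvals
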