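import Pool.Agent.H23S.Asm3
import Pool.Agent.H23S.NF
import Pool.Agent.H23S.NS0
import Pool.Agent.H23S.NSI
import Pool.Agent.H23S.RPC
import Pool.Agent.H23S.LIN
import Pool.Agent.H23S.TRA
import Pool.Agent.H23S.DP
import Pool.Agent.H23S.ENT
import Pool.Agent.H23S.MIN
import Pool.Agent.H23S.CROSS
import Pool.Agent.H23S.CNT

/-!
# M-curves have no projective symmetries of large odd order

Let `A` be a nonsingular real plane curve of even degree `2 k ≥ 6` with a real projective symmetry of odd order
`m > k`. Then `ℝA` has at most `m k` components if `m < 2 k`, at most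
`(2 k - 1) ⌊(k + 1) / 2⌋ + ((k + 1) mod 2)` components if `m = 2 k - 1`, and at most `k` components if `m > 2 k`. In
all the cases this is less than the number `(2 k - 1) (2 k - 2) / 2 + 1` of components of an M-curve. For degree `8`
(`k = 4`, M-curves have `22` ovals): symmetry of order `5`: at most `20` ovals; of order `7`: at most `15`; of odd
order at least `9`: at most `4`.

The real projective plane is the projectivization of `ℝ ^ 3` with the quotient topology, components are
connected components of the real part, the order of the symmetry is its order in `PGL(3, ℝ)`.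
-/

set_option autoImplicit false

namespace Pool.Agent.Results.MP_b7f146_ag.SymmetricCurves

open Pool.Agent.H23S

theorem result (k m : ℕ) (F : MvPolynomial (Fin 3) ℝ) (σ : Module.End ℝ (Fin 3 → ℝ)) (a : ℝ)
    (hk : 3 ≤ k) (hF : F.IsHomogeneous (2 * k)) (hN : Nonsing F) (hσ : Function.Injective σ)
    (hsym : ∀ v, MvPolynomial.eval (σ v) F = a * MvPolynomial.eval v F)
    (hodd : Odd m) (hkm : k < m) (hm : ∃ l : ℝ, ∀ v, (σ ^ m) v = l • v)
    (hord : ∀ j, 0 < j → j < m → ¬ ∃ l : ℝ, ∀ v, (σ ^ j) v = l • v) :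
    (m ≤ 2 * k → (comps (realPart F)).encard ≤ (m * k : ℕ)) ∧
    (m = 2 * k - 1 →
      (comps (realPart F)).encard ≤ ((2 * k - 1) * ((k + 1) / 2) + (k + 1) % 2 : ℕ)) ∧
    (2 * k < m → (comps (realPart F)).encard ≤ k) ∧
    (comps (realPart F)).encard < (((2 * k - 1) * (2 * k - 2) / 2 + 1 : ℕ) : ℕ∞) :=
  As.main t_NF t_NS0 t_NSI t_RPC t_LIN t_TRA t_DP (fun h => t_ENT h) t_MIN t_CROSS
    (t_CNT t_DP (t_ENT t_DP)) k m F σ a hk hF hN hσ hsym hodd hkm hm hord

end Pool.Agent.Results.MP_b7f146_ag.SymmetricCurves
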